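import Pool.Agent.QUD.StmtsC

/-!
# Row CRT of squad QUD: the integral over `τ`
-/

set_option autoImplicit false

namespace Pool.Agent.QUD.H92C

open MeasureTheory Filter Topology

theorem mem_compl {x : ℝ} (h0 : x ≠ 0) (h1 : |x| < 1) : (x : ℂ) ∈ Complex.integerComplement := by
  rw [Complex.mem_integerComplement_iff]
  rintro ⟨n, hn⟩
  have h2 : (n : ℝ) = x := by exact_mod_cast hn
  rw [← h2] at h0 h1
  have h3 : |n| < 1 := by exact_mod_cast h1
  have h4 : n = 0 := Int.abs_lt_one_iff.1 h3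
  exact h0 (by rw [h4]; norm_num)

theorem hcot {x : ℝ} (h0 : x ≠ 0) (h1 : |x| < 1) :
    HasSum (fun n : ℕ => 1 / (x - (n + 1)) + 1 / (x + (n + 1)))
      (Real.pi * (Real.cos (Real.pi * x) / Real.sin (Real.pi * x)) - 1 / x) := by
  have hm := mem_compl h0 h1
  have h2 := (summable_cotTerm hm).hasSum
  have h3 := cot_series_rep' hm
  have h4 : ∑' n : ℕ, cotTerm (x : ℂ) n =
      ∑' n : ℕ, (1 / ((x : ℂ) - (n + 1)) + 1 / ((x : ℂ) + (n + 1))) := rfl
  rw [h4, ← h3, Complex.cot] at h2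
  rw [← Complex.hasSum_ofReal]
  have h5 : (((Real.pi * (Real.cos (Real.pi * x) / Real.sin (Real.pi * x)) - 1 / x : ℝ)) : ℂ) =
      Real.pi * (Complex.cos (Real.pi * x) / Complex.sin (Real.pi * x)) - 1 / x := by
    push_cast
    rfl
  rw [h5]
  have h6 : (fun n : ℕ => (((1 / (x - (n + 1)) + 1 / (x + (n + 1)) : ℝ)) : ℂ)) =
      cotTerm (x : ℂ) := by
    funext n
    push_cast
    rfl
  rw [h6]
  exact h2

theorem htan {a : ℝ} (h0 : 0 < a) (h1 : a < Real.pi) :
    HasSum (fun k : ℕ => 1 / ((2 * k + 1) * Real.pi - a) - 1 / ((2 * k + 1) * Real.pi + a))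
      (1 / 2 * Real.tan (a / 2)) := by
  have hpi := Real.pi_pos
  obtain ⟨w, hw⟩ : ∃ w : ℝ, w = a / Real.pi := ⟨_, rfl⟩
  have hw0 : 0 < w := by rw [hw]; positivity
  have hw1 : w < 1 := by rw [hw, div_lt_one hpi]; exact h1
  have haw : a = Real.pi * w := by rw [hw]; field_simp
  have hA := hcot hw0.ne' (by rw [abs_of_pos hw0]; exact hw1)
  have hB := hcot (x := w / 2) (by positivity) (by rw [abs_of_pos (by positivity)]; linarith)
  obtain ⟨f, hf⟩ : ∃ f : ℕ → ℝ, ∀ n, f n = 1 / (w - (n + 1)) + 1 / (w + (n + 1)) :=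
    ⟨_, fun _ => rfl⟩
  have hA' : HasSum f (Real.pi * (Real.cos (Real.pi * w) / Real.sin (Real.pi * w)) - 1 / w) := by
    have h2 : f = fun n : ℕ => 1 / (w - (n + 1)) + 1 / (w + (n + 1)) := funext hf
    rw [h2]
    exact hA
  have hodd : HasSum (fun k => f (2 * k + 1))
      ((Real.pi * (Real.cos (Real.pi * (w / 2)) / Real.sin (Real.pi * (w / 2))) - 1 / (w / 2))
        / 2) := by
    have h2 := hB.div_const 2
    have h3 : (fun k => f (2 * k + 1)) =
        fun n : ℕ => (1 / (w / 2 - (n + 1)) + 1 / (w / 2 + (n + 1))) / 2 := by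
      funext k
      rw [hf]
      have hk : (0 : ℝ) ≤ k := Nat.cast_nonneg k
      have e1 : w / 2 - ((k : ℝ) + 1) ≠ 0 := by
        intro h
        linarith
      have e2 : w / 2 + ((k : ℝ) + 1) ≠ 0 := by positivity
      have e3 : w - (((2 * k + 1 : ℕ) : ℝ) + 1) = 2 * (w / 2 - ((k : ℝ) + 1)) := by
        push_cast
        ring
      have e4 : w + (((2 * k + 1 : ℕ) : ℝ) + 1) = 2 * (w / 2 + ((k : ℝ) + 1)) := by
        push_cast
        ring
      rw [e3, e4]
      field_simp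
    rw [h3]
    exact h2
  have hev : Summable fun k => f (2 * k) :=
    hA'.summable.comp_injective (i := fun k : ℕ => 2 * k) (fun m n h => by
      have h' : 2 * m = 2 * n := h
      omega)
  have hsum := hev.hasSum.even_add_odd hodd
  have huniq := hsum.unique hA'
  have hE : HasSum (fun k => f (2 * k))
      (Real.pi * (Real.cos (Real.pi * w) / Real.sin (Real.pi * w)) -
        Real.pi / 2 * (Real.cos (Real.pi * (w / 2)) / Real.sin (Real.pi * (w / 2)))) := by
    have h2 := hev.hasSum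
    have h3 : ∑' k, f (2 * k) =
        Real.pi * (Real.cos (Real.pi * w) / Real.sin (Real.pi * w)) -
        Real.pi / 2 * (Real.cos (Real.pi * (w / 2)) / Real.sin (Real.pi * (w / 2))) := by
      have h4 : (1 : ℝ) / (w / 2) = 2 * (1 / w) := by field_simp
      rw [h4] at huniq
      linarith
    rwa [h3] at h2
  have hfin := hE.mul_left (-(1 / Real.pi))
  have h5 : (fun k : ℕ => -(1 / Real.pi) * f (2 * k)) =
      fun k : ℕ => 1 / ((2 * k + 1) * Real.pi - a) - 1 / ((2 * k + 1) * Real.pi + a) := by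
    funext k
    rw [hf, haw]
    have hk : (0 : ℝ) ≤ k := Nat.cast_nonneg k
    have e1 : w - (2 * (k : ℝ) + 1) ≠ 0 := by
      intro h
      linarith
    have e2 : w + (2 * (k : ℝ) + 1) ≠ 0 := by positivity
    have e3 : w - (((2 * k : ℕ) : ℝ) + 1) = w - (2 * (k : ℝ) + 1) := by push_cast; ring
    have e4 : w + (((2 * k : ℕ) : ℝ) + 1) = w + (2 * (k : ℝ) + 1) := by push_cast; ring
    have e5 : (2 * (k : ℝ) + 1) * Real.pi - Real.pi * w = -(Real.pi * (w - (2 * (k : ℝ) + 1))) := by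
      ring
    have e6 : (2 * (k : ℝ) + 1) * Real.pi + Real.pi * w = Real.pi * (w + (2 * (k : ℝ) + 1)) := by
      ring
    rw [e3, e4, e5, e6]
    field_simp
    ring
  rw [h5] at hfin
  have h6 : -(1 / Real.pi) * (Real.pi * (Real.cos (Real.pi * w) / Real.sin (Real.pi * w)) -
        Real.pi / 2 * (Real.cos (Real.pi * (w / 2)) / Real.sin (Real.pi * (w / 2)))) =
      1 / 2 * Real.tan (a / 2) := by
    have e1 : Real.pi * (w / 2) = a / 2 := by rw [haw]; ring
    have e2 : Real.pi * w = 2 * (a / 2) := by rw [haw]; ring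
    rw [e1, e2, Real.cos_two_mul, Real.sin_two_mul, Real.tan_eq_sin_div_cos]
    have hs : 0 < Real.sin (a / 2) := Real.sin_pos_of_pos_of_lt_pi (by linarith) (by linarith)
    have hc : 0 < Real.cos (a / 2) := Real.cos_pos_of_mem_Ioo ⟨by linarith, by linarith⟩
    have hsc := Real.sin_sq_add_cos_sq (a / 2)
    field_simp
    linear_combination (-1 : ℝ) * hsc
  rw [h6] at hfin
  exact hfin

theorem int_exp {b : ℝ} (hb : 0 < b) :
    IntegrableOn (fun τ : ℝ => Real.exp (-(b * τ))) (Set.Ioi 0) ∧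
      ∫ τ in Set.Ioi (0 : ℝ), Real.exp (-(b * τ)) = 1 / b := by
  have h1 := integrableOn_exp_mul_Ioi (a := -b) (by linarith) 0
  have h2 := integral_exp_mul_Ioi (a := -b) (by linarith) 0
  have h3 : (fun τ : ℝ => Real.exp (-(b * τ))) = fun τ : ℝ => Real.exp (-b * τ) := by
    funext τ
    rw [neg_mul]
  rw [h3]
  refine ⟨h1, ?_⟩
  rw [h2, mul_zero, Real.exp_zero]
  field_simp

/-- integral of a series of nonnegative functions -/
theorem int_series (F : ℕ → ℝ → ℝ) (G : ℝ → ℝ) (I : ℕ → ℝ) (S : ℝ)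
    (hint : ∀ k, IntegrableOn (F k) (Set.Ioi 0))
    (hval : ∀ k, ∫ τ in Set.Ioi (0 : ℝ), F k τ = I k)
    (hnn : ∀ k, ∀ τ, 0 < τ → 0 ≤ F k τ) (hS : HasSum I S)
    (hG : ∀ τ, 0 < τ → HasSum (fun k => F k τ) (G τ)) :
    ∫ τ in Set.Ioi (0 : ℝ), G τ = S := by
  have hnorm : ∀ k, ∫ τ in Set.Ioi (0 : ℝ), ‖F k τ‖ = I k := by
    intro k
    rw [← hval k]
    refine setIntegral_congr_fun measurableSet_Ioi fun τ hτ => ?_
    exact Real.norm_of_nonneg (hnn k τ hτ)
  have h1 := hasSum_integral_of_summable_integral_norm (μ := volume.restrict (Set.Ioi (0 : ℝ)))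
    (F := F) hint (by
      have h2 : (fun k => ∫ τ in Set.Ioi (0 : ℝ), ‖F k τ‖) = I := funext hnorm
      rw [h2]
      exact hS.summable)
  have h2 : (fun k => ∫ τ in Set.Ioi (0 : ℝ), F k τ) = I := funext hval
  rw [h2] at h1
  have h3 := h1.unique hS
  rw [← h3]
  exact setIntegral_congr_fun measurableSet_Ioi fun τ hτ => (hG τ hτ).tsum_eq.symm

theorem partA_pos {a : ℝ} (h0 : 0 < a) (h1 : a < Real.pi) :
    ∫ τ in Set.Ioi (0 : ℝ), Real.sinh (a * τ) / Real.sinh (Real.pi * τ) =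
      1 / 2 * Real.tan (a / 2) := by
  have hpi := Real.pi_pos
  have hb1 : ∀ k : ℕ, 0 < (2 * (k : ℝ) + 1) * Real.pi - a := by
    intro k
    have hk : (0 : ℝ) ≤ k := Nat.cast_nonneg k
    nlinarith
  have hb2 : ∀ k : ℕ, 0 < (2 * (k : ℝ) + 1) * Real.pi + a := by
    intro k
    positivity
  refine int_series (fun k τ => Real.exp (-(((2 * (k : ℝ) + 1) * Real.pi - a) * τ)) -
      Real.exp (-(((2 * (k : ℝ) + 1) * Real.pi + a) * τ))) _ _ _ ?_ ?_ ?_ (htan h0 h1) ?_
  · intro k
    exact (int_exp (hb1 k)).1.sub (int_exp (hb2 k)).1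
  · intro k
    rw [integral_sub (int_exp (hb1 k)).1 (int_exp (hb2 k)).1, (int_exp (hb1 k)).2,
      (int_exp (hb2 k)).2]
  · intro k τ hτ
    rw [sub_nonneg]
    apply Real.exp_le_exp.2
    nlinarith
  · intro τ hτ
    have hq0 : 0 ≤ Real.exp (-(2 * Real.pi * τ)) := (Real.exp_pos _).le
    have hq1 : Real.exp (-(2 * Real.pi * τ)) < 1 := by
      rw [Real.exp_lt_one_iff]
      have : 0 < 2 * Real.pi * τ := by positivity
      linarith
    have hg := (hasSum_geometric_of_lt_one hq0 hq1).mul_left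
      ((Real.exp (a * τ) - Real.exp (-(a * τ))) * Real.exp (-(Real.pi * τ)))
    have h2 : (fun k : ℕ => (Real.exp (a * τ) - Real.exp (-(a * τ))) *
        Real.exp (-(Real.pi * τ)) * Real.exp (-(2 * Real.pi * τ)) ^ k) =
        fun k : ℕ => Real.exp (-(((2 * (k : ℝ) + 1) * Real.pi - a) * τ)) -
          Real.exp (-(((2 * (k : ℝ) + 1) * Real.pi + a) * τ)) := by
      funext k
      rw [← Real.exp_nat_mul, sub_mul, sub_mul, ← Real.exp_add, ← Real.exp_add, ← Real.exp_add,
        ← Real.exp_add]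
      congr 2 <;> ring
    rw [h2] at hg
    have h3 : (Real.exp (a * τ) - Real.exp (-(a * τ))) * Real.exp (-(Real.pi * τ)) *
        (1 - Real.exp (-(2 * Real.pi * τ)))⁻¹ = Real.sinh (a * τ) / Real.sinh (Real.pi * τ) := by
      rw [Real.sinh_eq, Real.sinh_eq]
      have e1 : Real.exp (-(2 * Real.pi * τ)) = Real.exp (-(Real.pi * τ)) ^ 2 := by
        rw [← Real.exp_nat_mul]
        congr 1
        push_cast
        ring
      have e2 : Real.exp (Real.pi * τ) = (Real.exp (-(Real.pi * τ)))⁻¹ := by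
        rw [Real.exp_neg, inv_inv]
      rw [e1] at hq1 ⊢
      rw [e2]
      have e3 : Real.exp (-(Real.pi * τ)) ≠ 0 := (Real.exp_pos _).ne'
      have e4 : 1 - Real.exp (-(Real.pi * τ)) ^ 2 ≠ 0 := by linarith
      have e5 : (Real.exp (-(Real.pi * τ)))⁻¹ - Real.exp (-(Real.pi * τ)) ≠ 0 := by
        intro h
        apply e4
        have h6 : (Real.exp (-(Real.pi * τ)))⁻¹ - Real.exp (-(Real.pi * τ)) =
            (1 - Real.exp (-(Real.pi * τ)) ^ 2) / Real.exp (-(Real.pi * τ)) := by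
          field_simp
        rw [h6, div_eq_zero_iff] at h
        exact h.resolve_right e3
      field_simp
    rw [h3] at hg
    exact hg

theorem tan_half_pos {a : ℝ} (h0 : 0 < a) (h1 : a < Real.pi) : 0 < 1 / 2 * Real.tan (a / 2) := by
  have := Real.tan_pos_of_pos_of_lt_pi_div_two (x := a / 2) (by linarith) (by linarith)
  positivity

theorem partA {a : ℝ} (h0 : -Real.pi < a) (h1 : a < Real.pi) :
    IntegrableOn (fun τ : ℝ => Real.sinh (a * τ) / Real.sinh (Real.pi * τ)) (Set.Ioi 0) ∧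
    ∫ τ in Set.Ioi (0 : ℝ), Real.sinh (a * τ) / Real.sinh (Real.pi * τ) =
      1 / 2 * Real.tan (a / 2) := by
  rcases lt_trichotomy a 0 with h | h | h
  · have h2 : (fun τ : ℝ => Real.sinh (a * τ) / Real.sinh (Real.pi * τ)) =
        fun τ : ℝ => -(Real.sinh ((-a) * τ) / Real.sinh (Real.pi * τ)) := by
      funext τ
      rw [neg_mul, Real.sinh_neg]
      ring
    have h3 := partA_pos (a := -a) (by linarith) (by linarith)
    have h4 := tan_half_pos (a := -a) (by linarith) (by linarith)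
    have h5 : IntegrableOn (fun τ : ℝ => Real.sinh ((-a) * τ) / Real.sinh (Real.pi * τ))
        (Set.Ioi 0) := Integrable.of_integral_ne_zero (by rw [h3]; exact h4.ne')
    rw [h2]
    refine ⟨h5.neg, ?_⟩
    rw [integral_neg, h3, neg_div, Real.tan_neg]
    ring
  · subst h
    have h2 : (fun τ : ℝ => Real.sinh (0 * τ) / Real.sinh (Real.pi * τ)) = fun _ => 0 := by
      funext τ
      rw [zero_mul, Real.sinh_zero, zero_div]
    rw [h2]
    refine ⟨integrableOn_zero, ?_⟩
    rw [zero_div, Real.tan_zero, mul_zero]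
    exact integral_zero _ _
  · have h3 := partA_pos h h1
    exact ⟨Integrable.of_integral_ne_zero (by rw [h3]; exact (tan_half_pos h h1).ne'), h3⟩

theorem int_texp {b : ℝ} (hb : 0 < b) :
    IntegrableOn (fun τ : ℝ => 2 * τ * Real.exp (-(b * τ))) (Set.Ioi 0) ∧
      ∫ τ in Set.Ioi (0 : ℝ), 2 * τ * Real.exp (-(b * τ)) = 2 / b ^ 2 := by
  have h1 := Real.integral_rpow_mul_exp_neg_mul_Ioi (a := 2) (r := b) (by norm_num) hb
  have h2 : ∫ τ in Set.Ioi (0 : ℝ), 2 * τ * Real.exp (-(b * τ)) = 2 / b ^ 2 := by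
    have h3 : (fun τ : ℝ => 2 * τ * Real.exp (-(b * τ))) =
        fun τ : ℝ => 2 * (τ ^ ((2 : ℝ) - 1) * Real.exp (-(b * τ))) := by
      funext τ
      have h4 : (2 : ℝ) - 1 = 1 := by norm_num
      rw [h4, Real.rpow_one]
      ring
    rw [h3, integral_const_mul, h1, Real.Gamma_two]
    have h5 : (1 / b) ^ (2 : ℝ) = (1 / b) ^ 2 := by
      rw [← Real.rpow_natCast]
      norm_num
    rw [h5]
    field_simp
  refine ⟨Integrable.of_integral_ne_zero ?_, h2⟩
  rw [h2]
  positivity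

theorem partB {c : ℝ} (hc : 0 < c) :
    IntegrableOn (fun τ : ℝ => τ * (Real.cosh (c * τ) / Real.sinh (c * τ) - 1)) (Set.Ioi 0) ∧
    ∫ τ in Set.Ioi (0 : ℝ), τ * (Real.cosh (c * τ) / Real.sinh (c * τ) - 1) =
      Real.pi ^ 2 / (12 * c ^ 2) := by
  have hb : ∀ k : ℕ, 0 < 2 * ((k : ℝ) + 1) * c := fun k => by positivity
  have hz : HasSum (fun k : ℕ => 2 / (2 * ((k : ℝ) + 1) * c) ^ 2)
      (Real.pi ^ 2 / (12 * c ^ 2)) := by
    have h1 := (hasSum_nat_add_iff' 1).2 hasSum_zeta_two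
    have h2 := h1.mul_left (1 / (2 * c ^ 2))
    have h3 : (fun k : ℕ => 1 / (2 * c ^ 2) * (1 / ((k + 1 : ℕ) : ℝ) ^ 2)) =
        fun k : ℕ => 2 / (2 * ((k : ℝ) + 1) * c) ^ 2 := by
      funext k
      have hk : (0 : ℝ) < (k : ℝ) + 1 := by positivity
      push_cast
      field_simp
    rw [h3] at h2
    have h4 : 1 / (2 * c ^ 2) * (Real.pi ^ 2 / 6 - ∑ i ∈ Finset.range 1, 1 / (i : ℝ) ^ 2) =
        Real.pi ^ 2 / (12 * c ^ 2) := by
      rw [Finset.sum_range_one]
      norm_num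
      field_simp
      norm_num
    rw [h4] at h2
    exact h2
  have h0 : ∫ τ in Set.Ioi (0 : ℝ), τ * (Real.cosh (c * τ) / Real.sinh (c * τ) - 1) =
      Real.pi ^ 2 / (12 * c ^ 2) := by
    refine int_series (fun k τ => 2 * τ * Real.exp (-(2 * ((k : ℝ) + 1) * c * τ))) _ _ _
      (fun k => (int_texp (hb k)).1) (fun k => (int_texp (hb k)).2) ?_ hz ?_
    · intro k τ hτ
      positivity
    · intro τ hτ
      have hq0 : 0 ≤ Real.exp (-(2 * c * τ)) := (Real.exp_pos _).le
      have hq1 : Real.exp (-(2 * c * τ)) < 1 := by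
        rw [Real.exp_lt_one_iff]
        have : 0 < 2 * c * τ := by positivity
        linarith
      have hg := (hasSum_geometric_of_lt_one hq0 hq1).mul_left
        (2 * τ * Real.exp (-(2 * c * τ)))
      have h2 : (fun k : ℕ => 2 * τ * Real.exp (-(2 * c * τ)) * Real.exp (-(2 * c * τ)) ^ k) =
          fun k : ℕ => 2 * τ * Real.exp (-(2 * ((k : ℝ) + 1) * c * τ)) := by
        funext k
        rw [← Real.exp_nat_mul, mul_assoc, ← Real.exp_add]
        congr 2
        ring
      rw [h2] at hg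
      have h3 : 2 * τ * Real.exp (-(2 * c * τ)) * (1 - Real.exp (-(2 * c * τ)))⁻¹ =
          τ * (Real.cosh (c * τ) / Real.sinh (c * τ) - 1) := by
        rw [Real.sinh_eq, Real.cosh_eq]
        have e1 : Real.exp (-(2 * c * τ)) = Real.exp (-(c * τ)) ^ 2 := by
          rw [← Real.exp_nat_mul]
          congr 1
          push_cast
          ring
        have e2 : Real.exp (c * τ) = (Real.exp (-(c * τ)))⁻¹ := by
          rw [Real.exp_neg, inv_inv]
        rw [e1] at hq1 ⊢
        rw [e2]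
        have e3 : Real.exp (-(c * τ)) ≠ 0 := (Real.exp_pos _).ne'
        generalize Real.exp (-(c * τ)) = q at *
        have e4 : 1 - q ^ 2 ≠ 0 := by linarith
        have e6 : q⁻¹ - q = (1 - q ^ 2) / q := by
          field_simp
        rw [e6]
        field_simp
        ring
      rw [h3] at hg
      exact hg
  refine ⟨Integrable.of_integral_ne_zero ?_, h0⟩
  rw [h0]
  have := Real.pi_pos
  positivity

/-- **CRT** -/
theorem crt : CrtStmt := by
  intro α h0 h1
  have hpi := Real.pi_pos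
  obtain ⟨hA1, hA2⟩ := partA (a := 2 * α - Real.pi) (by linarith) (by linarith)
  obtain ⟨hB1, hB2⟩ := partB h0
  obtain ⟨hC1, hC2⟩ := partB hpi
  have hBC : IntegrableOn (fun τ : ℝ => τ * (Real.cosh (α * τ) / Real.sinh (α * τ) - 1) -
      τ * (Real.cosh (Real.pi * τ) / Real.sinh (Real.pi * τ) - 1)) (Set.Ioi 0) := hB1.sub hC1
  have hcongr : Set.EqOn (fun τ : ℝ => Real.pi * τ / (2 * Real.sinh (Real.pi * τ)) *
      (Real.sinh ((2 * α - Real.pi) * τ) / τ
        + α * Real.sinh ((Real.pi - α) * τ) / Real.sinh (α * τ)))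
      (fun τ : ℝ => Real.pi / 2 * (Real.sinh ((2 * α - Real.pi) * τ) / Real.sinh (Real.pi * τ)) +
        Real.pi * α / 2 * (τ * (Real.cosh (α * τ) / Real.sinh (α * τ) - 1) -
          τ * (Real.cosh (Real.pi * τ) / Real.sinh (Real.pi * τ) - 1))) (Set.Ioi 0) := by
    intro τ hτ
    have hτ' : 0 < τ := hτ
    have e1 : Real.sinh (Real.pi * τ) ≠ 0 := (Real.sinh_pos_iff.2 (by positivity)).ne'
    have e2 : Real.sinh (α * τ) ≠ 0 := (Real.sinh_pos_iff.2 (by positivity)).ne'
    have e3 : Real.sinh ((Real.pi - α) * τ) =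
        Real.sinh (Real.pi * τ) * Real.cosh (α * τ) - Real.cosh (Real.pi * τ) * Real.sinh (α * τ) := by
      rw [sub_mul, Real.sinh_sub]
    change Real.pi * τ / (2 * Real.sinh (Real.pi * τ)) *
      (Real.sinh ((2 * α - Real.pi) * τ) / τ
        + α * Real.sinh ((Real.pi - α) * τ) / Real.sinh (α * τ)) =
      Real.pi / 2 * (Real.sinh ((2 * α - Real.pi) * τ) / Real.sinh (Real.pi * τ)) +
        Real.pi * α / 2 * (τ * (Real.cosh (α * τ) / Real.sinh (α * τ) - 1) -
          τ * (Real.cosh (Real.pi * τ) / Real.sinh (Real.pi * τ) - 1))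
    rw [e3]
    generalize Real.sinh ((2 * α - Real.pi) * τ) = s at *
    field_simp
    ring
  have hint : IntegrableOn (fun τ : ℝ =>
      Real.pi / 2 * (Real.sinh ((2 * α - Real.pi) * τ) / Real.sinh (Real.pi * τ)) +
        Real.pi * α / 2 * (τ * (Real.cosh (α * τ) / Real.sinh (α * τ) - 1) -
          τ * (Real.cosh (Real.pi * τ) / Real.sinh (Real.pi * τ) - 1))) (Set.Ioi 0) :=
    (hA1.const_mul _).add (hBC.const_mul _)
  refine ⟨hint.congr_fun hcongr.symm measurableSet_Ioi, ?_⟩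
  rw [setIntegral_congr_fun measurableSet_Ioi hcongr,
    integral_add (hA1.const_mul _) (hBC.const_mul _), integral_const_mul,
    integral_const_mul, integral_sub hB1 hC1, hA2, hB2, hC2]
  have hs : 0 < Real.sin α := Real.sin_pos_of_pos_of_lt_pi h0 h1
  have e1 : (2 * α - Real.pi) / 2 = α - Real.pi / 2 := by ring
  have e2 : Real.tan (α - Real.pi / 2) = -(Real.cos α / Real.sin α) := by
    rw [Real.tan_eq_sin_div_cos, Real.sin_sub_pi_div_two, Real.cos_sub_pi_div_two]
    ring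
  rw [e1, e2]
  field_simp
  ring

end Pool.Agent.QUD.H92C
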