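import Pool.Agent.QUD.StmtsF

/-!
# Row FLF of squad QUD: the flip theorem
-/

set_option autoImplicit false

namespace Pool.Agent.QUD.H92

open MeasureTheory Complex Filter Topology ProbabilityTheory Pool.Agent.H16Iso Pool.Agent.H62T
open Pool.Agent.AEU

theorem ip_rf (e v : ℂ) (τ : ℝ) (x : ℂ) :
    ip v (rf e τ x) = ip v x - 2 * (ip e x - τ) * ip v e := by
  simp only [ip, rf, Complex.sub_re, Complex.sub_im, Complex.mul_re, Complex.mul_im,
    Complex.ofReal_re, Complex.ofReal_im]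
  ring

theorem ip_ref (v e x : ℂ) :
    ip (v - ((2 * ip v e : ℝ) : ℂ) * e) x = ip v x - 2 * ip v e * ip e x := by
  simp only [ip, Complex.sub_re, Complex.sub_im, Complex.mul_re, Complex.mul_im,
    Complex.ofReal_re, Complex.ofReal_im]
  ring

theorem ip_neg (e x : ℂ) : ip (-e) x = - ip e x := by
  simp only [ip, Complex.neg_re, Complex.neg_im]
  ring

theorem ip_neg' (u e : ℂ) : ip u (-e) = - ip u e := by
  simp only [ip, Complex.neg_re, Complex.neg_im]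
  ring

theorem ip_self {e : ℂ} (he : ‖e‖ = 1) : ip e e = 1 := by
  have h1 : Complex.normSq e = 1 := by
    rw [Complex.normSq_eq_norm_sq, he, one_pow]
  rw [Complex.normSq_apply] at h1
  exact h1

theorem rf_neg (e : ℂ) (τ : ℝ) : rf (-e) (-τ) = rf e τ := by
  funext x
  simp only [rf, ip_neg]
  push_cast
  ring

theorem ip_lin (u : ℂ) : IsLinearMap ℝ (ip u) := by
  refine ⟨fun x y => ?_, fun c x => ?_⟩
  · simp only [ip, Complex.add_re, Complex.add_im]
    ring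
  · simp only [ip, Complex.smul_re, Complex.smul_im, smul_eq_mul]
    ring

theorem ip_cont (u : ℂ) : Continuous (ip u) := by
  change Continuous fun x : ℂ => u.re * x.re + u.im * x.im
  exact (continuous_const.mul Complex.continuous_re).add
    (continuous_const.mul Complex.continuous_im)

theorem hp_open (u : ℂ) (H : ℝ) : IsOpen {x | ip u x < H} :=
  isOpen_lt (ip_cont u) continuous_const

theorem hp_convex (u : ℂ) (H : ℝ) : Convex ℝ {x | ip u x < H} :=
  convex_halfSpace_lt (ip_lin u) H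

/-- the mirror image of a half-plane is a half-plane -/
theorem flip_iff (e v : ℂ) (τ K : ℝ) (x : ℂ) :
    ip v (rf e τ x) < K ↔
      ip (v - ((2 * ip v e : ℝ) : ℂ) * e) x < K - 2 * τ * ip v e := by
  rw [ip_rf, ip_ref]
  constructor <;> intro h <;> linarith

theorem flip_eq_iff (e v : ℂ) (τ K : ℝ) (x : ℂ) :
    ip v (rf e τ x) = K ↔
      ip (v - ((2 * ip v e : ℝ) : ℂ) * e) x = K - 2 * τ * ip v e := by
  rw [ip_rf, ip_ref]
  constructor <;> intro h <;> linarith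

theorem flipset_open (e v : ℂ) (τ K : ℝ) : IsOpen {x | ip v (rf e τ x) < K} := by
  have h : {x | ip v (rf e τ x) < K} =
      {x | ip (v - ((2 * ip v e : ℝ) : ℂ) * e) x < K - 2 * τ * ip v e} := by
    ext x
    exact flip_iff e v τ K x
  rw [h]
  exact hp_open _ _

theorem flipset_convex (e v : ℂ) (τ K : ℝ) : Convex ℝ {x | ip v (rf e τ x) < K} := by
  have h : {x | ip v (rf e τ x) < K} =
      {x | ip (v - ((2 * ip v e : ℝ) : ℂ) * e) x < K - 2 * τ * ip v e} := by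
    ext x
    exact flip_iff e v τ K x
  rw [h]
  exact hp_convex _ _

/-- both normals on the same side -/
theorem core (h1 : FlpStmt) (h2 : PogStmt) (e : ℂ) (τ : ℝ) (W : Set ℂ) (u v : ℂ) (H K : ℝ)
    (he : ‖e‖ = 1) (hW : IsOpen W) (hWc : Convex ℝ W) (hs : ∀ x ∈ W, rf e τ x ∈ W)
    (hu : ip u e < 0) (hv : ip v e < 0) (hc : ∀ x ∈ W, ip u x < H ∨ ip v x < K)
    (hpu : ∃ x ∈ W, ip u x = H) (hpv : ∃ x ∈ W, ip v x = K)
    (hb1 : Bornology.IsBounded {x | x ∈ W ∧ ip u x < H ∧ ip v x < K})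
    (hb2 : Bornology.IsBounded {x | x ∈ W ∧ ip u x < H ∧ ip v (rf e τ x) < K}) :
    ¬ ∀ k, dirEig {x | x ∈ W ∧ ip u x < H ∧ ip v x < K} k =
      dirEig {x | x ∈ W ∧ ip u x < H ∧ ip v (rf e τ x) < K} k := by
  obtain ⟨hP, ⟨a, r, hr, ha⟩, hB⟩ := h2 e τ W u v H K he hW hs hu hv hc hpu hpv
  have ho1 : IsOpen {x | x ∈ W ∧ ip u x < H ∧ ip v x < K} :=
    hW.inter ((hp_open u H).inter (hp_open v K))
  have ho2 : IsOpen {x | x ∈ W ∧ ip u x < H ∧ ip v (rf e τ x) < K} :=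
    hW.inter ((hp_open u H).inter (flipset_open e v τ K))
  have hc1 : Convex ℝ {x | x ∈ W ∧ ip u x < H ∧ ip v x < K} :=
    hWc.inter ((hp_convex u H).inter (hp_convex v K))
  have hc2 : Convex ℝ {x | x ∈ W ∧ ip u x < H ∧ ip v (rf e τ x) < K} :=
    hWc.inter ((hp_convex u H).inter (flipset_convex e v τ K))
  have haa := ha a (Metric.mem_ball_self hr)
  have hn2 : ({x | x ∈ W ∧ ip u x < H ∧ ip v (rf e τ x) < K} : Set ℂ).Nonempty := by
    obtain ⟨D', hD'⟩ : ∃ D' : Set ℂ, D' = {x | x ∈ W ∧ ip u x < H ∧ ip v (rf e τ x) < K} :=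
      ⟨_, rfl⟩
    obtain ⟨D, hD⟩ : ∃ D : Set ℂ, D = {x | x ∈ W ∧ ip u x < H ∧ ip v x < K} := ⟨_, rfl⟩
    rw [← hD'] at hP haa ⊢
    rw [← hD] at hP haa
    have h3 := (hP a haa.1).1
    have h4 : iD D a = 1 := Set.indicator_of_mem haa.2.1 _
    have h5 : iD D (rf e τ a) = 0 := Set.indicator_of_notMem haa.2.2.1 _
    by_contra hne
    rw [Set.not_nonempty_iff_eq_empty] at hne
    have h6 : ∀ x, iD D' x = 0 := fun x => Set.indicator_of_notMem (by rw [hne]; exact fun h => h) _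
    rw [h6, h6, h4, h5] at h3
    norm_num at h3
  exact h1 e τ _ _ he ho1 hc1 hb1 ⟨a, haa.2.1⟩ ho2 hc2 hb2 hn2 hP ⟨a, r, hr, ha⟩ hB

/-- the first normal on the negative side -/
theorem core2 (h1 : FlpStmt) (h2 : PogStmt) (e : ℂ) (τ : ℝ) (W : Set ℂ) (u v : ℂ) (H K : ℝ)
    (he : ‖e‖ = 1) (hinv : ∀ x, rf e τ (rf e τ x) = x)
    (hW : IsOpen W) (hWc : Convex ℝ W) (hs : ∀ x ∈ W, rf e τ x ∈ W)
    (hu : ip u e < 0) (hv : ip v e ≠ 0) (hc : ∀ x ∈ W, ip u x < H ∨ ip v x < K)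
    (hc' : ∀ x ∈ W, ip u x < H ∨ ip v (rf e τ x) < K)
    (hpu : ∃ x ∈ W, ip u x = H) (hpv : ∃ x ∈ W, ip v x = K)
    (hb1 : Bornology.IsBounded {x | x ∈ W ∧ ip u x < H ∧ ip v x < K})
    (hb2 : Bornology.IsBounded {x | x ∈ W ∧ ip u x < H ∧ ip v (rf e τ x) < K}) :
    ¬ ∀ k, dirEig {x | x ∈ W ∧ ip u x < H ∧ ip v x < K} k =
      dirEig {x | x ∈ W ∧ ip u x < H ∧ ip v (rf e τ x) < K} k := by
  rcases lt_or_gt_of_ne hv with hv | hv
  · exact core h1 h2 e τ W u v H K he hW hWc hs hu hv hc hpu hpv hb1 hb2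
  · obtain ⟨v', hv'⟩ : ∃ v' : ℂ, v' = v - ((2 * ip v e : ℝ) : ℂ) * e := ⟨_, rfl⟩
    obtain ⟨K', hK'⟩ : ∃ K' : ℝ, K' = K - 2 * τ * ip v e := ⟨_, rfl⟩
    have hlt : ∀ x, ip v (rf e τ x) < K ↔ ip v' x < K' := by
      intro x
      rw [hv', hK']
      exact flip_iff e v τ K x
    have heq : ∀ x, ip v (rf e τ x) = K ↔ ip v' x = K' := by
      intro x
      rw [hv', hK']
      exact flip_eq_iff e v τ K x
    have hlt' : ∀ x, ip v' (rf e τ x) < K' ↔ ip v x < K := by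
      intro x
      rw [← hlt, hinv]
    have hve : ip v' e < 0 := by
      rw [hv', ip_ref, ip_self he]
      linarith
    have hs1 : {x | x ∈ W ∧ ip u x < H ∧ ip v (rf e τ x) < K} =
        {x | x ∈ W ∧ ip u x < H ∧ ip v' x < K'} := by
      ext x
      simp only [Set.mem_ofPred_eq, hlt]
    have hs2 : {x | x ∈ W ∧ ip u x < H ∧ ip v x < K} =
        {x | x ∈ W ∧ ip u x < H ∧ ip v' (rf e τ x) < K'} := by
      ext x
      simp only [Set.mem_ofPred_eq, hlt']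
    intro hk
    rw [hs1] at hb2
    rw [hs2] at hb1
    refine core h1 h2 e τ W u v' H K' he hW hWc hs hu hve (fun x hx => ?_) hpu ?_ hb2 hb1
      (fun k => ?_)
    · rw [← hlt]
      exact hc' x hx
    · obtain ⟨x, hx, hxK⟩ := hpv
      refine ⟨rf e τ x, hs x hx, ?_⟩
      rw [← heq, hinv]
      exact hxK
    · rw [← hs1, ← hs2]
      exact (hk k).symm

/-- **FLF** -/
theorem flf (h0 : RfbStmt) (h1 : FlpStmt) (h2 : PogStmt) : FlfStmt := by
  intro e τ W u v H K he hW hWc hs hu hv hc hc' hpu hpv hb1 hb2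
  rcases lt_or_gt_of_ne hu with hu' | hu'
  · exact core2 h1 h2 e τ W u v H K he (h0 e τ he).2.1 hW hWc hs hu' hv hc hc' hpu hpv hb1 hb2
  · have h3 := core2 h1 h2 (-e) (-τ) W u v H K (by rw [norm_neg]; exact he)
      (h0 (-e) (-τ) (by rw [norm_neg]; exact he)).2.1 hW hWc
      (by rw [rf_neg]; exact hs) (by rw [ip_neg']; linarith)
      (by rw [ip_neg']; exact neg_ne_zero.2 hv) hc (by rw [rf_neg]; exact hc') hpu hpv hb1
      (by rw [rf_neg]; exact hb2)
    rw [rf_neg] at h3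
    exact h3

end Pool.Agent.QUD.H92
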