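import Pool.Agent.QUD.StmtsL

/-!
# Row PRL of squad QUD: parallel sides at the first level
-/

set_option autoImplicit false

namespace Pool.Agent.QUD.H92L

open MeasureTheory Complex Filter Topology ProbabilityTheory Pool.Agent.H16Iso Pool.Agent.H62T
open Pool.Agent.H16F (Sublin ind)
open Pool.Agent.AEU Pool.Agent.XQ

theorem ip_add' (u x y : ℂ) : ip u (x + y) = ip u x + ip u y := by
  simp only [ip, Complex.add_re, Complex.add_im]
  ring

theorem ip_sub' (u x y : ℂ) : ip u (x - y) = ip u x - ip u y := by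
  simp only [ip, Complex.sub_re, Complex.sub_im]
  ring

theorem ip_rmul (u x : ℂ) (r : ℝ) : ip u ((r : ℂ) * x) = r * ip u x := by
  simp only [ip, Complex.mul_re, Complex.mul_im, Complex.ofReal_re, Complex.ofReal_im]
  ring

theorem ip_negl (u x : ℂ) : ip (-u) x = - ip u x := by
  simp only [ip, Complex.neg_re, Complex.neg_im]
  ring

theorem ip_I (u : ℂ) : ip u (I * u) = 0 := by
  simp only [ip, Complex.mul_re, Complex.mul_im, Complex.I_re, Complex.I_im]
  ring

theorem ip_self' {e : ℂ} (he : ‖e‖ = 1) : ip e e = 1 := by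
  have h1 : Complex.normSq e = 1 := by
    rw [Complex.normSq_eq_norm_sq, he, one_pow]
  rw [Complex.normSq_apply] at h1
  exact h1

theorem norm_sq_eq {e : ℂ} (he : ‖e‖ = 1) (z : ℂ) : ‖z‖ ^ 2 = ip e z ^ 2 + dt e z ^ 2 := by
  have h1 : Complex.normSq e = 1 := by
    rw [Complex.normSq_eq_norm_sq, he, one_pow]
  rw [Complex.normSq_apply] at h1
  rw [← Complex.normSq_eq_norm_sq, Complex.normSq_apply]
  simp only [ip, dt]
  linear_combination (-(z.re * z.re + z.im * z.im)) * h1

theorem dt_add' (u x y : ℂ) : dt u (x + y) = dt u x + dt u y := by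
  simp only [dt, Complex.add_re, Complex.add_im]
  ring

theorem dt_sub' (u x y : ℂ) : dt u (x - y) = dt u x - dt u y := by
  simp only [dt, Complex.sub_re, Complex.sub_im]
  ring

theorem dt_rmul (u x : ℂ) (r : ℝ) : dt u ((r : ℂ) * x) = r * dt u x := by
  simp only [dt, Complex.mul_re, Complex.mul_im, Complex.ofReal_re, Complex.ofReal_im]
  ring

theorem dt_I {e : ℂ} (he : ‖e‖ = 1) : dt e (I * e) = 1 := by
  have h1 : Complex.normSq e = 1 := by
    rw [Complex.normSq_eq_norm_sq, he, one_pow]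
  rw [Complex.normSq_apply] at h1
  simp only [dt, Complex.mul_re, Complex.mul_im, Complex.I_re, Complex.I_im]
  linear_combination h1

/-- four different elements -/
theorem four_le {T : Finset HP} {a b c d : HP} (ha : a ∈ T) (hb : b ∈ T) (hc : c ∈ T)
    (hd : d ∈ T) (h1 : a ≠ b) (h2 : a ≠ c) (h3 : a ≠ d) (h4 : b ≠ c) (h5 : b ≠ d) (h6 : c ≠ d) :
    4 ≤ T.card := by
  classical
  have hs : ({a, b, c, d} : Finset HP) ⊆ T := by
    intro z hz
    simp only [Finset.mem_insert, Finset.mem_singleton] at hz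
    rcases hz with rfl | rfl | rfl | rfl <;> assumption
  have hcard : ({a, b, c, d} : Finset HP).card = 4 := by
    rw [Finset.card_insert_of_notMem, Finset.card_insert_of_notMem,
      Finset.card_insert_of_notMem, Finset.card_singleton]
    · simpa using h6
    · simp only [Finset.mem_insert, Finset.mem_singleton, not_or]
      exact ⟨h4, h5⟩
    · simp only [Finset.mem_insert, Finset.mem_singleton, not_or]
      exact ⟨h1, h2, h3⟩
  rw [← hcard]
  exact Finset.card_le_card hs

/-- a point can be moved in a direction which does not increase the active constraints -/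
theorem move (X : Finset HP) (x d : ℂ) (hx : x ∈ Cl X)
    (h : ∀ b ∈ X, ip b.1 x = b.2 → ip b.1 d ≤ 0) :
    ∀ᶠ ε : ℝ in 𝓝[>] (0 : ℝ), x + (ε : ℂ) * d ∈ Cl X := by
  have h1 : ∀ᶠ ε : ℝ in 𝓝[>] (0 : ℝ), ∀ b ∈ X, ip b.1 (x + (ε : ℂ) * d) ≤ b.2 := by
    rw [Filter.eventually_all_finset]
    intro b hb
    have hxb : ip b.1 x ≤ b.2 := hx b hb
    rcases eq_or_lt_of_le hxb with h2 | h2
    · filter_upwards [self_mem_nhdsWithin] with ε hε
      have hε' : (0 : ℝ) < ε := hε
      rw [ip_add', ip_rmul, h2]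
      nlinarith [h b hb h2]
    · have hc : Tendsto (fun ε : ℝ => ip b.1 (x + (ε : ℂ) * d)) (𝓝[>] (0 : ℝ))
          (𝓝 (ip b.1 x)) := by
        have h3 : Continuous fun ε : ℝ => ip b.1 x + ε * ip b.1 d := by fun_prop
        have h4 := (h3.tendsto 0).mono_left (nhdsWithin_le_nhds (s := Set.Ioi (0 : ℝ)))
        rw [zero_mul, add_zero] at h4
        refine h4.congr fun ε => ?_
        rw [ip_add', ip_rmul]
      filter_upwards [hc.eventually (gt_mem_nhds h2)] with ε hε
      exact le_of_lt hε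
  exact h1

theorem mem_touch_hf (mixS : MixStatement) (X : Finset HP) {x y : ℂ} (hx : x ∈ Cl X)
    (hy : y ∈ Cl X) (s : HP) :
    s ∈ touch X (hf ![x, y]) ↔ s ∈ X ∧ (ip s.1 x = s.2 ∨ ip s.1 y = s.2) := by
  have h := ((mixS X).2.2 1 ![x, y] (by
    intro i
    fin_cases i
    · exact hx
    · exact hy)).2 s
  rw [h, Fin.exists_fin_two]
  rfl

theorem fits_hf (mixS : MixStatement) (X : Finset HP) {x y : ℂ} (hx : x ∈ Cl X)
    (hy : y ∈ Cl X) : Fits X (hf ![x, y]) := by
  exact ((mixS X).2.2 1 ![x, y] (by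
    intro i
    fin_cases i
    · exact hx
    · exact hy)).1

/-- if the nearest pair of points cannot be moved, there is an active constraint -/
theorem active (X : Finset HP) (a : HP) (ha : ‖a.1‖ = 1) (x y : ℂ) (hx : x ∈ Cl X) (s : ℝ)
    (hs : s = 1 ∨ s = -1) (hτ : s * dt a.1 (x - y) < 0)
    (hmin : ∀ x' ∈ Cl X, ip a.1 x' = ip a.1 x → ‖x - y‖ ≤ ‖x' - y‖) :
    ∃ b ∈ X, ip b.1 x = b.2 ∧ 0 < ip b.1 ((s : ℂ) * (I * a.1)) := by
  by_contra hcon
  push Not at hcon
  have h1 := move X x ((s : ℂ) * (I * a.1)) hx hcon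
  have h2 : ∀ᶠ ε : ℝ in 𝓝[>] (0 : ℝ), ε < -(s * dt a.1 (x - y)) := by
    have h3 : (0 : ℝ) < -(s * dt a.1 (x - y)) := by linarith
    exact nhdsWithin_le_nhds (gt_mem_nhds h3)
  obtain ⟨ε, ⟨h3, h4⟩, h5⟩ := ((h1.and h2).and self_mem_nhdsWithin).exists
  have hε : (0 : ℝ) < ε := h5
  have h6 : ip a.1 (x + (ε : ℂ) * ((s : ℂ) * (I * a.1))) = ip a.1 x := by
    rw [ip_add', ip_rmul, ip_rmul, ip_I, mul_zero, mul_zero, add_zero]
  have h7 := hmin _ h3 h6
  have h8 : ‖x - y‖ ^ 2 ≤ ‖x + (ε : ℂ) * ((s : ℂ) * (I * a.1)) - y‖ ^ 2 :=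
    pow_le_pow_left₀ (norm_nonneg _) h7 2
  rw [norm_sq_eq ha, norm_sq_eq ha (x + (ε : ℂ) * ((s : ℂ) * (I * a.1)) - y)] at h8
  have h9 : ip a.1 (x + (ε : ℂ) * ((s : ℂ) * (I * a.1)) - y) = ip a.1 (x - y) := by
    rw [ip_sub', h6, ip_sub']
  have h10 : dt a.1 (x + (ε : ℂ) * ((s : ℂ) * (I * a.1)) - y) = dt a.1 (x - y) + ε * s := by
    rw [dt_sub', dt_add', dt_rmul, dt_rmul, dt_I ha, dt_sub']
    ring
  rw [h9, h10] at h8
  have h11 : s ^ 2 = 1 := by
    rcases hs with rfl | rfl <;> norm_num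
  have h12 : (dt a.1 (x - y) + ε * s) ^ 2 =
      dt a.1 (x - y) ^ 2 + ε * (2 * (s * dt a.1 (x - y)) + ε) := by
    linear_combination ε ^ 2 * h11
  have h13 : ε * (2 * (s * dt a.1 (x - y)) + ε) < 0 :=
    mul_neg_of_pos_of_neg hε (by linarith)
  rw [h12] at h8
  linarith

/-- **PRL** -/
theorem prl (seg : SegStmt) (thr : ThrStmt) (vxx : VxxStatement) (hul : HulStatement)
    (per : PerStatement) (mixS : MixStatement) : PrlStmt := by
  classical
  intro X L hX hL hB
  obtain ⟨-, -, -, -, -, -, -, -, -, hpar, -⟩ := vxx X hX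
  refine ⟨?_, ?_⟩
  · intro a ha a' ha' hne hdt hnf
    obtain ⟨x, hx, y, hy, hax, hay, hmin, hsub, hfit, hta, hta', hlam, hle⟩ := seg X hX a ha a' ha'
    have hopp : a'.1 = -a.1 := hpar a ha a' ha' hne hdt
    have hua : ‖a.1‖ = 1 := hX.unit a ha
    have hLm : L ≤ 2 * ‖x - y‖ := by
      by_contra hlt
      push Not at hlt
      exact (hB _ hsub hfit (by rw [hlam]; exact hlt)).2 a hta a' hta' hne hdt
    rcases lt_or_eq_of_le hLm with hlt | heq
    · refine ⟨2 * ‖x - y‖ - L, by linarith, fun h hs hf' hl ht => ?_⟩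
      have := hle h hs hf' ht.1 ht.2
      linarith
    · exfalso
      have hw : ip a.1 (x - y) = a.2 + a'.2 := by
        rw [hopp, ip_negl] at hay
        rw [ip_sub', hax]
        linarith
      by_cases hd : dt a.1 (x - y) = 0
      · apply hnf
        have h1 : ‖x - y‖ ^ 2 = (a.2 + a'.2) ^ 2 := by
          rw [norm_sq_eq hua, hw, hd]
          ring
        have h2 : 0 ≤ a.2 + a'.2 := by
          have h3 : ip a'.1 x ≤ a'.2 := hx a' ha'
          rw [hopp, ip_negl, hax] at h3
          linarith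
        have h3 : ‖x - y‖ = a.2 + a'.2 :=
          (pow_left_inj₀ (norm_nonneg _) h2 two_ne_zero).1 h1
        have h4 : a.2 + a'.2 = L / 2 := by rw [← h3]; linarith
        refine ⟨ha, ha', hopp, h4, x, hx, hax, ?_⟩
        have h5 : x - ((L / 2 : ℝ) : ℂ) * a.1 = y := by
          have h6 : x - y - ((L / 2 : ℝ) : ℂ) * a.1 = 0 := by
            rw [← norm_eq_zero, ← sq_eq_zero_iff, norm_sq_eq hua, ip_sub', dt_sub', ip_rmul,
              dt_rmul, hw, hd, ip_self' hua]
            have h7 : dt a.1 a.1 = 0 := by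
              simp only [dt]
              ring
            rw [h7, h4]
            ring
          linear_combination h6
        rw [h5]
        exact hy
      · obtain ⟨s, hs, hsd⟩ : ∃ s : ℝ, (s = 1 ∨ s = -1) ∧ s * dt a.1 (x - y) < 0 := by
          rcases lt_or_gt_of_ne hd with h1 | h1
          · exact ⟨1, Or.inl rfl, by linarith⟩
          · exact ⟨-1, Or.inr rfl, by linarith⟩
        obtain ⟨b, hb, hbx, hbs⟩ := active X a hua x y hx s hs hsd
          (fun x' hx' h => hmin x' hx' y hy (by rw [h, hax]) hay)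
        have hs' : -s = 1 ∨ -s = -1 := by
          rcases hs with rfl | rfl
          · exact Or.inr rfl
          · exact Or.inl (by norm_num)
        obtain ⟨b', hb', hby, hbs'⟩ := active X a hua y x hy (-s) hs'
          (by
            have h1 : dt a.1 (y - x) = - dt a.1 (x - y) := by
              rw [dt_sub', dt_sub']
              ring
            rw [h1]
            linarith)
          (fun y' hy' h => by
            rw [norm_sub_rev y x, norm_sub_rev y' x]
            refine hmin x hx y' hy' hax ?_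
            rw [hopp, ip_negl] at hay ⊢
            rw [h]
            exact hay)
        have hneg : ip b'.1 ((s : ℂ) * (I * a.1)) < 0 := by
          have h1 : ((-s : ℝ) : ℂ) * (I * a.1) = ((-1 : ℝ) : ℂ) * ((s : ℂ) * (I * a.1)) := by
            push_cast
            ring
          rw [h1, ip_rmul] at hbs'
          linarith
        have hza : ip a.1 ((s : ℂ) * (I * a.1)) = 0 := by
          rw [ip_rmul, ip_I, mul_zero]
        have hza' : ip a'.1 ((s : ℂ) * (I * a.1)) = 0 := by
          rw [hopp, ip_negl, hza, neg_zero]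
        have hcard := thr X L hX hB _ hsub hfit (by rw [hlam]; exact heq.ge)
        have h4 : 4 ≤ (touch X (hf ![x, y])).card := by
          refine four_le hta hta' ((mem_touch_hf mixS X hx hy b).2 ⟨hb, Or.inl hbx⟩)
            ((mem_touch_hf mixS X hx hy b').2 ⟨hb', Or.inr hby⟩) hne ?_ ?_ ?_ ?_ ?_
          · rintro rfl
            linarith
          · rintro rfl
            linarith
          · rintro rfl
            linarith
          · rintro rfl
            linarith
          · rintro rfl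
            linarith
        omega
  · intro a a' hF
    have ha := hF.mem
    have ha' := hF.mem'
    have hopp := hF.opp
    have hua : ‖a.1‖ = 1 := hX.unit a ha
    obtain ⟨x, hx, hax, hx'⟩ := hF.seg
    obtain ⟨y, hy⟩ : ∃ y : ℂ, y = x - ((L / 2 : ℝ) : ℂ) * a.1 := ⟨_, rfl⟩
    rw [← hy] at hx'
    have hay : ip a'.1 y = a'.2 := by
      have h1 := hF.dist
      rw [hopp, ip_negl, hy, ip_sub', ip_rmul, ip_self' hua, hax]
      linarith
    have hne : a ≠ a' := by
      intro h
      rw [← h] at hopp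
      have h1 : ip a.1 a.1 = 1 := ip_self' hua
      have h2 : ip (-a.1) a.1 = - ip a.1 a.1 := ip_negl _ _
      rw [← hopp] at h2
      linarith
    have hlam : lam (hf ![x, y]) = L := by
      rw [per.1, hy]
      have h1 : x - (x - ((L / 2 : ℝ) : ℂ) * a.1) = ((L / 2 : ℝ) : ℂ) * a.1 := by ring
      rw [h1, norm_mul, hua, mul_one, Complex.norm_real, Real.norm_eq_abs,
        abs_of_pos (by linarith)]
      ring
    have hcard := thr X L hX hB _ (hul 1 ![x, y]).1 (fits_hf mixS X hx hx') hlam.le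
    have hta : a ∈ touch X (hf ![x, y]) := (mem_touch_hf mixS X hx hx' a).2 ⟨ha, Or.inl hax⟩
    have hta' : a' ∈ touch X (hf ![x, y]) := (mem_touch_hf mixS X hx hx' a').2 ⟨ha', Or.inr hay⟩
    have hza : ∀ s : ℝ, ip a.1 ((s : ℂ) * (I * a.1)) = 0 := by
      intro s
      rw [ip_rmul, ip_I, mul_zero]
    have hza' : ∀ s : ℝ, ip a'.1 ((s : ℂ) * (I * a.1)) = 0 := by
      intro s
      rw [hopp, ip_negl, hza, neg_zero]
    obtain ⟨s, hs, hact⟩ : ∃ s : ℝ, (s = 1 ∨ s = -1) ∧ ∀ c ∈ touch X (hf ![x, y]),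
        ip c.1 ((s : ℂ) * (I * a.1)) ≤ 0 := by
      by_cases hb : ∃ b ∈ touch X (hf ![x, y]), b ≠ a ∧ b ≠ a'
      · obtain ⟨b, hb, hba, hba'⟩ := hb
        have hall : ∀ c ∈ touch X (hf ![x, y]), c = a ∨ c = a' ∨ c = b := by
          intro c hc
          by_contra hcon
          push Not at hcon
          have := four_le hta hta' hb hc hne (Ne.symm hba) (Ne.symm hcon.1) (Ne.symm hba')
            (Ne.symm hcon.2.1) (Ne.symm hcon.2.2)
          omega
        obtain ⟨s, hs, hsb⟩ : ∃ s : ℝ, (s = 1 ∨ s = -1) ∧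
            ip b.1 ((s : ℂ) * (I * a.1)) ≤ 0 := by
          rcases le_total (ip b.1 (I * a.1)) 0 with h1 | h1
          · exact ⟨1, Or.inl rfl, by rw [ip_rmul]; linarith⟩
          · exact ⟨-1, Or.inr rfl, by rw [ip_rmul]; linarith⟩
        refine ⟨s, hs, fun c hc => ?_⟩
        rcases hall c hc with rfl | rfl | rfl
        · exact (hza s).le
        · exact (hza' s).le
        · exact hsb
      · push Not at hb
        refine ⟨1, Or.inl rfl, fun c hc => ?_⟩
        by_cases hca : c = a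
        · rw [hca]
          exact (hza 1).le
        · rw [hb c hc hca]
          exact (hza' 1).le
    have hm1 := move X x ((s : ℂ) * (I * a.1)) hx
      (fun b hb hbx => hact b ((mem_touch_hf mixS X hx hx' b).2 ⟨hb, Or.inl hbx⟩))
    have hm2 := move X y ((s : ℂ) * (I * a.1)) hx'
      (fun b hb hbx => hact b ((mem_touch_hf mixS X hx hx' b).2 ⟨hb, Or.inr hbx⟩))
    obtain ⟨ε, ⟨h1, h2⟩, h3⟩ := ((hm1.and hm2).and self_mem_nhdsWithin).exists
    have hε : (0 : ℝ) < ε := h3
    refine ⟨x, x + (ε : ℂ) * ((s : ℂ) * (I * a.1)), ?_, hx, h1, hax, ?_, ?_, ?_⟩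
    · intro h
      have h4 : dt a.1 (x + (ε : ℂ) * ((s : ℂ) * (I * a.1))) = dt a.1 x := by rw [← h]
      rw [dt_add', dt_rmul, dt_rmul, dt_I hua] at h4
      rcases hs with rfl | rfl <;> linarith
    · rw [ip_add', ip_rmul, hza, mul_zero, add_zero, hax]
    · rw [← hy]
      exact hx'
    · have h4 : x + (ε : ℂ) * ((s : ℂ) * (I * a.1)) - ((L / 2 : ℝ) : ℂ) * a.1 =
          y + (ε : ℂ) * ((s : ℂ) * (I * a.1)) := by
        rw [hy]
        ring
      rw [h4]
      exact h2

end Pool.Agent.QUD.H92L
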