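import Pool.Agent.QUD.StmtsY
import Pool.Agent.Helper34_QUD.UQA

/-!
Squad QUD (MP_5b0138_an), row XMC (helper92): items of the type A, existence of a common item.
-/

set_option autoImplicit false

namespace Pool.Agent.QUD.H92X

open MeasureTheory Filter Topology Real Set Pool.Agent.AEU Pool.Agent.AEU.H12 Pool.Agent.XQ
  Pool.Agent.XQ.U Pool.Agent.QUD.H34

/-- both parameters of an item of a polygon lie between one and two -/
lemma xmc_bb {q : ℝ × ℝ} (h : OkA q) : (bb q).1 ∈ Ioo (1 : ℝ) 2 ∧ (bb q).2 ∈ Ioo (1 : ℝ) 2 := by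
  unfold OkA at h
  refine ⟨inv_mem ?_ ?_, inv_mem ?_ ?_⟩
  · linarith [h.1, h.2.1]
  · linarith [h.1, h.2.1]
  · linarith [h.2.2.1, h.2.2.2]
  · linarith [h.2.2.1, h.2.2.2]

theorem xmc (h1 : AaxStmt) (h2 : MonoStmt) : XmcStmt := by
  intro l A hl hA hc hd
  constructor
  · intro hno
    have h0 : (l.map cA).sum = 0 := by
      apply List.sum_eq_zero
      intro x hx
      rw [List.mem_map] at hx
      obtain ⟨p, hp, rfl⟩ := hx
      simp [cA, hno p hp]
    rw [h0] at hc
    cases A with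
    | nil => rfl
    | cons a A =>
      exfalso
      have hpos : ∀ q, OkA q → 0 < FA (bb q).1 * FA (bb q).2 := fun q hq =>
        mul_pos (h2.1 _ (xmc_bb hq).1) (h2.1 _ (xmc_bb hq).2)
      rw [List.map_cons, List.sum_cons] at hc
      have ha := hpos a (hA a (by simp))
      have hs : 0 ≤ (A.map fun p => FA (bb p).1 * FA (bb p).2).sum := by
        apply List.sum_nonneg
        intro x hx
        rw [List.mem_map] at hx
        obtain ⟨q, hq, rfl⟩ := hx
        exact (hpos q (hA q (by simp [hq]))).le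
      linarith
  · rintro ⟨p0, hp0, ho0⟩
    have htr : ∀ p ∈ (oA l).map tr, p.1 ∈ Ioo (1 : ℝ) 2 ∧ p.2 ∈ Ioo (1 : ℝ) 2 := by
      intro p hp
      rw [List.mem_map] at hp
      obtain ⟨q, hq, rfl⟩ := hp
      obtain ⟨h1, h2⟩ := mem_oA hq
      have hk := hl q h1
      exact ⟨inv_mem h2.1 hk.2.1, inv_mem h2.2 hk.2.2.2.1⟩
    have hbb : ∀ p ∈ A.map bb, p.1 ∈ Ioo (1 : ℝ) 2 ∧ p.2 ∈ Ioo (1 : ℝ) 2 := by
      intro p hp
      rw [List.mem_map] at hp
      obtain ⟨q, hq, rfl⟩ := hp
      exact xmc_bb (hA q hq)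
    have hne : (oA l).map tr ≠ [] := by
      intro h
      rw [List.map_eq_nil_iff] at h
      have : p0 ∈ oA l := by
        classical
        unfold oA
        rw [List.mem_filter]
        exact ⟨hp0, by simpa using ho0⟩
      rw [h] at this
      simp at this
    obtain ⟨u, hu, w, hw, huw⟩ := h1 ((oA l).map tr) (A.map bb) htr hbb hne
      (by
        filter_upwards [hd] with z hz
        rw [← sum_dA, hz, List.map_map]; rfl)
    rw [List.mem_map] at hu hw
    obtain ⟨p, hp, rfl⟩ := hu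
    obtain ⟨q, hq, rfl⟩ := hw
    obtain ⟨hpl, hpo⟩ := mem_oA hp
    have kp := hl p hpl
    have kq := hA q hq
    unfold OkA at kq
    refine ⟨p, hpl, hpo, q, hq, ?_⟩
    rcases huw with h4 | h4
    · left
      have e1 : π / p.1 = π / (π - q.1) := congrArg Prod.fst h4
      have e2 : π / p.2 = π / (π - q.2) := congrArg Prod.snd h4
      have r1 := inv_inj kp.1 (by linarith [kq.1, kq.2.1]) e1
      have r2 := inv_inj kp.2.2.1 (by linarith [kq.2.2.1, kq.2.2.2]) e2
      exact ⟨by linarith, by linarith⟩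
    · right
      have e1 : π / p.1 = π / (π - q.2) := congrArg Prod.fst h4
      have e2 : π / p.2 = π / (π - q.1) := congrArg Prod.snd h4
      have r1 := inv_inj kp.1 (by linarith [kq.2.2.1, kq.2.2.2]) e1
      have r2 := inv_inj kp.2.2.1 (by linarith [kq.1, kq.2.1]) e2
      exact ⟨by linarith, by linarith⟩

end Pool.Agent.QUD.H92X
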