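import Pool.Agent.QUD.StmtsXU

/-!
# Row XOR of squad QUD, block XU
-/

set_option autoImplicit false

namespace Pool.Agent.QUD.H92X

open MeasureTheory Filter Topology Real Set Pool.Agent.AEU Pool.Agent.AEU.H12 Pool.Agent.XQ
  Pool.Agent.XQ.U

theorem small_tend {L : ℝ} {f : ℝ → ℝ} (h : Small L f) :
    Tendsto (fun κ => f κ * rexp (L * κ)) atTop (𝓝 0) := by
  obtain ⟨C, δ, hδ, hf⟩ := h
  have h1 : Tendsto (fun κ : ℝ => C * rexp (-(δ * κ))) atTop (𝓝 0) := by
    have h2 : Tendsto (fun κ : ℝ => δ * κ) atTop atTop := tendsto_id.const_mul_atTop hδ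
    have h3 : Tendsto (fun κ : ℝ => rexp (-(δ * κ))) atTop (𝓝 0) :=
      Real.tendsto_exp_neg_atTop_nhds_zero.comp h2
    simpa using h3.const_mul C
  refine squeeze_zero_norm' ?_ h1
  filter_upwards [hf] with κ hκ
  rw [Real.norm_eq_abs, abs_mul, abs_of_pos (Real.exp_pos _)]
  calc |f κ| * rexp (L * κ) ≤ C * rexp (-((L + δ) * κ)) * rexp (L * κ) :=
        mul_le_mul_of_nonneg_right hκ (Real.exp_pos _).le
    _ = C * rexp (-(δ * κ)) := by
        rw [mul_assoc, ← Real.exp_add]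
        congr 2
        ring

theorem lead_tend {L p c : ℝ} {f : ℝ → ℝ} (hp : 0 < p) (h : Lead f L p c) :
    Tendsto (fun κ => f κ * rexp (L * κ)) atTop (𝓝 0) := by
  have h1 : Tendsto (fun κ : ℝ => κ ^ (-p)) atTop (𝓝 0) := tendsto_rpow_neg_atTop hp
  have h2 := Tendsto.mul h h1
  rw [mul_zero] at h2
  refine h2.congr' ?_
  filter_upwards [eventually_gt_atTop 0] with κ hκ
  have h3 : κ ^ p * κ ^ (-p) = 1 := by
    rw [← Real.rpow_add hκ, add_neg_cancel, Real.rpow_zero]
  rw [mul_assoc, mul_assoc, h3, mul_one]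

theorem posJ_top {L : ℝ} {J : ℝ → ℝ} (h : PosJ L J) (h0 : J ≠ 0) :
    Tendsto (fun κ => J κ * rexp (L * κ)) atTop atTop := by
  rcases h with h | ⟨c, κ0, hc, -, h⟩
  · exact absurd h h0
  · have h1 : Tendsto (fun κ : ℝ => c * κ ^ (1 / 2 : ℝ)) atTop atTop :=
      (tendsto_rpow_atTop (by norm_num)).const_mul_atTop hc
    refine tendsto_atTop_mono' _ ?_ h1
    filter_upwards [eventually_ge_atTop κ0] with κ hκ
    calc c * κ ^ (1 / 2 : ℝ) = c * κ ^ (1 / 2 : ℝ) * rexp (-(L * κ)) * rexp (L * κ) := by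
          rw [mul_assoc, ← Real.exp_add, neg_add_cancel, Real.exp_zero, mul_one]
      _ ≤ J κ * rexp (L * κ) := mul_le_mul_of_nonneg_right (h κ hκ) (Real.exp_pos _).le

/-- **Row XOR** -/
theorem xor (hSP : Sp2Stmt) : XorStmt := by
  intro L t fA fB JP J A B hL hA hB hJP hJ hS
  have hAt : Tendsto (fun κ => fA κ * rexp (L * κ)) atTop (𝓝 0) := by
    rcases hA with ⟨-, h⟩ | ⟨m, c, hm, -, h⟩
    · exact small_tend h
    · refine lead_tend ?_ h
      have : (3 : ℝ) ≤ m := by exact_mod_cast hm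
      linarith
  have hBt : Tendsto (fun κ => fB κ * rexp (L * κ)) atTop (𝓝 0) := by
    rcases hB with ⟨-, h⟩ | ⟨j, c, -, h⟩
    · exact small_tend h
    · exact lead_tend (by positivity) h
  have hDt : Tendsto (fun κ => (JP κ - J κ) * rexp (L * κ)) atTop (𝓝 (-t)) := by
    have h1 := (((small_tend hS).sub hAt).sub hBt).sub (tendsto_const_nhds (x := t))
    rw [sub_zero, sub_zero, zero_sub] at h1
    refine h1.congr fun κ => ?_
    have h2 : rexp (-(L * κ)) * rexp (L * κ) = 1 := by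
      rw [← Real.exp_add, neg_add_cancel, Real.exp_zero]
    calc (fA κ + fB κ + t * rexp (-(L * κ)) + (JP κ - J κ)) * rexp (L * κ) - fA κ * rexp (L * κ)
          - fB κ * rexp (L * κ) - t
        = t * (rexp (-(L * κ)) * rexp (L * κ)) + (JP κ - J κ) * rexp (L * κ) - t := by ring
      _ = (JP κ - J κ) * rexp (L * κ) := by rw [h2]; ring
  refine ⟨?_, ?_⟩
  · intro hJP0
    have hJ0 : J = 0 := by
      by_contra h0
      have h1 := posJ_top hJ h0
      have h2 : Tendsto (fun κ => J κ * rexp (L * κ)) atTop (𝓝 (- -t)) := by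
        refine hDt.neg.congr fun κ => ?_
        rw [hJP0]
        simp
      exact not_tendsto_nhds_of_tendsto_atTop h1 _ h2
    have ht : t = 0 := by
      have h1 : Tendsto (fun κ => (JP κ - J κ) * rexp (L * κ)) atTop (𝓝 0) := by
        refine tendsto_const_nhds.congr fun κ => ?_
        rw [hJP0, hJ0]
        simp
      have h2 := tendsto_nhds_unique hDt h1
      linarith
    refine ⟨hJ0, ht, hSP L fA fB A B hL hA hB ?_⟩
    have e : (fun κ => fA κ + fB κ + t * rexp (-(L * κ)) + (JP κ - J κ)) =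
        fun κ => fA κ + fB κ := by
      funext κ
      rw [hJP0, hJ0, ht]
      simp
    rw [e] at hS
    exact hS
  · intro hJP0 hJ0
    have h1 := posJ_top hJP hJP0
    have h2 : Tendsto (fun κ => JP κ * rexp (L * κ)) atTop (𝓝 (-t)) := by
      refine hDt.congr fun κ => ?_
      rw [hJ0]
      simp
    exact not_tendsto_nhds_of_tendsto_atTop h1 _ h2

end Pool.Agent.QUD.H92X
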